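import Mathlib
import Pool.Agent.P8H15.DM.Fun

/-!
# Q2 is false: the equality clause fails for `p = 3` exactly when `m ≡ 8 (mod 9)`

Q2 asks whether for all primes `p ≥ 3` and all `m ≡ -1 (mod p)` the `p`-adic valuation of
`d_m(p^2 n) - d_m(n)` is at least `v_p(n) + 4 - [p = 3]` for all `n ≥ 1`, with equality for infinitely
many `n`. It is false. For `p = 3` the inequality is true for all `m ≡ 2 (mod 3)` and all `n`, but if
`m ≡ 8 (mod 9)` (for instance `m = 8`) then the valuation is at least `v_3(n) + 4` for every `n`, so that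
equality never holds. If `m ≡ 2` or `5 (mod 9)` then equality holds for all `n` prime to `3`.

Proof. Let `D` be the generating function, `u = 3 x / (1 - x) ^ 2`, and let `U` take every third
coefficient. Then `D(x) = (1 + u) ^ m D(x ^ 3)`, hence `U(h D) = U(h (1 + u) ^ m) D`. As
`u(x) ^ 3 = 9 u(x ^ 3) (1 + u(x)) ^ 2`, the series `b_k = U(u ^ k)` satisfy
`b_(k+3) = 9 u (b_k + 2 b_(k+1) + b_(k+2))`; so `U` maps `u ℤ[u]` to `3 u ℤ[u]`, and
`U((1 + u) ^ m) = 1 + α u` modulo `27 u ℤ[u]` with `α = 3 m + 12 C(m, 2) + 9 C(m, 3)`.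
-/

set_option autoImplicit false

namespace Pool.Agent.Results.MP_26251e_nt.EqualityClauseFails

open PowerSeries Finset

/-- `d p m n` is the coefficient of `x^n` in
`(1 - x)^(-m) * ∏_{j ≥ 0} (1 - x^(p^j))^(-(p-1)m)`.  For `p ≥ 2` the factors with `j > n` do not
influence this coefficient, because `p^j > n` for them; so the product over `0 ≤ j ≤ n` is taken.
Here `invOfUnit (1 - X ^ a) 1` is the inverse power series of `1 - X ^ a` (for `a ≥ 1`). -/
noncomputable def d (p m n : ℕ) : ℤ :=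
  coeff n ((invOfUnit (1 - X : ℤ⟦X⟧) 1) ^ m *
    ∏ j ∈ range (n + 1), (invOfUnit (1 - X ^ (p ^ j) : ℤ⟦X⟧) 1) ^ ((p - 1) * m))

/-- the difference `d_m(p^2 n) - d_m(n)` -/
noncomputable def diff (p m n : ℕ) : ℤ := d p m (p ^ 2 * n) - d p m n

/-- the conjectured bound `v_p(n) + 4 - [p = 3]` for the valuation of `diff p m n` -/
def bound (p n : ℕ) : ℕ := padicValNat p n + 4 - (if p = 3 then 1 else 0)

/-- the valuation of `diff p m n` is equal to the bound -/
def EqualityAt (p m n : ℕ) : Prop :=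
  (p : ℤ) ^ bound p n ∣ diff p m n ∧ ¬ (p : ℤ) ^ (bound p n + 1) ∣ diff p m n

/-- The statement of Q2. -/
def Q2 : Prop :=
  ∀ p : ℕ, p.Prime → 3 ≤ p → ∀ m : ℕ, m % p = p - 1 →
    (∀ n : ℕ, 1 ≤ n → (p : ℤ) ^ bound p n ∣ diff p m n) ∧ {n : ℕ | 1 ≤ n ∧ EqualityAt p m n}.Infinite

theorem d_eq (m n : ℕ) : d 3 m n = coeff n (Pool.Agent.P8H15.DM.D m) := by
  rw [Pool.Agent.P8H15.DM.coeff_D m n (n + 1) le_rfl]
  unfold d Pool.Agent.P8H15.DM.DN Pool.Agent.R443.PS.iv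
  rw [pow_one X]

theorem diff_eq (m n : ℕ) : diff 3 m n =
    coeff (9 * n) (Pool.Agent.P8H15.DM.D m) - coeff n (Pool.Agent.P8H15.DM.D m) := by
  unfold diff
  rw [d_eq, d_eq, show 3 ^ 2 * n = 9 * n by norm_num]

theorem al_eq (j : ℕ) : ∃ t s : ℤ, Pool.Agent.P8H15.DM.al (3 * j + 2) = 9 * t ∧
    2 * t = (j + 1) + 3 * s := by
  have h3 := Pool.Agent.P8H15.DM.six_choose (3 * j)
  have h2 : (2 : ℤ) * (((3 * j + 2).choose 2 : ℕ) : ℤ) = (3 * j + 2) * (3 * j + 1) := by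
    have h := Nat.descFactorial_eq_factorial_mul_choose (3 * j + 2) 2
    have h1 : (3 * j + 2).descFactorial 2 = (3 * j + 2) * (3 * j + 1) := by
      simp only [Nat.descFactorial_succ, Nat.descFactorial_zero]
      rw [show 3 * j + 2 - 0 = 3 * j + 2 by omega, show 3 * j + 2 - 1 = 3 * j + 1 by omega]
      ring
    rw [h1] at h
    have h4 := congrArg (Nat.cast : ℕ → ℤ) h
    have h5 : (Nat.factorial 2 : ℕ) = 2 := by rfl
    rw [h5] at h4
    push_cast at h4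
    linarith
  push_cast at h3
  refine ⟨6 * j ^ 2 + 7 * j + 2 + (((3 * j + 2).choose 3 : ℕ) : ℤ), 3 * j ^ 3 + 7 * j ^ 2 + 5 * j + 1,
    ?_, ?_⟩
  · unfold Pool.Agent.P8H15.DM.al
    push_cast
    nlinarith
  · nlinarith

theorem bound_three (n : ℕ) : bound 3 n = padicValNat 3 n + 2 + 1 := by
  unfold bound
  simp

/-- Q2 is false. For `p = 3` and every `m ≡ 2 (mod 3)` the inequality of Q2 holds for all `n ≥ 1`;
equality holds for infinitely many `n` if and only if `m` is not `8` modulo `9`; and if `m ≡ 8 (mod 9)`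
then the valuation is larger than the bound for every `n ≥ 1`. -/
theorem result : ¬ Q2 ∧ ∀ m : ℕ, m % 3 = 2 →
    (∀ n : ℕ, 1 ≤ n → (3 : ℤ) ^ bound 3 n ∣ diff 3 m n) ∧
    ({n : ℕ | 1 ≤ n ∧ EqualityAt 3 m n}.Infinite ↔ m % 9 ≠ 8) ∧
    (m % 9 = 8 → ∀ n : ℕ, 1 ≤ n → (3 : ℤ) ^ (bound 3 n + 1) ∣ diff 3 m n) := by
  have hall : ∀ m : ℕ, m % 3 = 2 →
    (∀ n : ℕ, 1 ≤ n → (3 : ℤ) ^ bound 3 n ∣ diff 3 m n) ∧
    ({n : ℕ | 1 ≤ n ∧ EqualityAt 3 m n}.Infinite ↔ m % 9 ≠ 8) ∧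
    (m % 9 = 8 → ∀ n : ℕ, 1 ≤ n → (3 : ℤ) ^ (bound 3 n + 1) ∣ diff 3 m n) := by
    intro m hm
    obtain ⟨j, rfl⟩ : ∃ j, m = 3 * j + 2 := ⟨m / 3, by omega⟩
    obtain ⟨t, s, ht, hs⟩ := al_eq j
    have h1 : ∀ n : ℕ, 1 ≤ n → (3 : ℤ) ^ bound 3 n ∣ diff 3 (3 * j + 2) n := by
      intro n _
      rw [bound_three, diff_eq]
      exact Pool.Agent.P8H15.DM.main (3 * j + 2) 2 (by norm_num) (by rw [ht]; exact ⟨t, by ring⟩) n
    have h2 : (3 * j + 2) % 9 = 8 → ∀ n : ℕ, 1 ≤ n →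
        (3 : ℤ) ^ (bound 3 n + 1) ∣ diff 3 (3 * j + 2) n := by
      intro h n _
      have h3 : (3 : ℤ) ∣ t := by omega
      obtain ⟨r, rfl⟩ := h3
      have h4 := Pool.Agent.P8H15.DM.main (3 * j + 2) 3 le_rfl
        (by rw [ht]; exact ⟨r, by ring⟩) n
      rw [bound_three, diff_eq]
      exact h4
    refine ⟨h1, ⟨?_, ?_⟩, h2⟩
    · intro hinf h8
      apply hinf
      have : {n : ℕ | 1 ≤ n ∧ EqualityAt 3 (3 * j + 2) n} = ∅ := by
        ext n
        simp only [Set.mem_ofPred_eq, Set.mem_empty_iff_false, iff_false]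
        rintro ⟨hn, _, h4⟩
        exact h4 (h2 h8 n hn)
      rw [this]
      exact Set.finite_empty
    · intro h8
      apply Set.infinite_of_injective_forall_mem (f := fun k : ℕ => 3 * k + 1)
      · intro a b hab
        simp only at hab
        omega
      · intro k
        have hk : ¬ 3 ∣ 3 * k + 1 := by omega
        refine ⟨by omega, h1 _ (by omega), ?_⟩
        have h3 : ¬ (27 : ℤ) ∣ Pool.Agent.P8H15.DM.al (3 * j + 2) := by
          rw [ht]
          omega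
        have h4 := Pool.Agent.P8H15.DM.exact (3 * j + 2) (3 * k + 1) (by rw [ht]; exact ⟨t, rfl⟩)
          h3 hk
        rw [bound_three, padicValNat.eq_zero_of_not_dvd hk, diff_eq]
        exact h4
  refine ⟨fun h => ?_, hall⟩
  have h1 := (h 3 Nat.prime_three le_rfl 8 (by norm_num)).2
  exact ((hall 8 (by norm_num)).2.1.mp h1) (by norm_num)

end Pool.Agent.Results.MP_26251e_nt.EqualityClauseFails
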